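import Pool.Agent.helper71.DSW.SpecB

/-!
# Row CEL: one column
-/

set_option autoImplicit false

namespace Pool.Agent.DSW

open Equiv Finset Function Pool.Agent.helper48.PP
open scoped ENNReal Classical

theorem CEL_hor (I : Bool) (J w J' w' : ℕ → Bool) (y : ℕ) (h : ∀ z < y, J z = J' z ∧ w z = w' z) :
    hor I J w y = hor I J' w' y := by
  induction y with
  | zero => rfl
  | succ y ih =>
    show (!(J y) && (hor I J w y || w y)) = (!(J' y) && (hor I J' w' y || w' y))
    rw [(h y (Nat.lt_succ_self y)).1, (h y (Nat.lt_succ_self y)).2,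
      ih fun z hz => h z (Nat.lt_succ_of_lt hz)]

theorem CEL_ver (I : Bool) (J w J' w' : ℕ → Bool) (y : ℕ) (h : ∀ z ≤ y, J z = J' z ∧ w z = w' z) :
    ver I J w y = ver I J' w' y := by
  unfold ver
  rw [CEL_hor I J w J' w' y fun z hz => h z hz.le, (h y le_rfl).1, (h y le_rfl).2]

theorem CEL_exb_lt {n : ℕ} (J : Fin n → Bool) (j : Bool) (y : ℕ) (hy : y < n) :
    exb (Fin.snoc (α := fun _ => Bool) J j) y = exb J y := by
  unfold exb
  rw [dif_pos hy, dif_pos (Nat.lt_succ_of_lt hy)]
  exact Fin.snoc_castSucc (α := fun _ => Bool) j J ⟨y, hy⟩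

theorem CEL_exb_eq {n : ℕ} (J : Fin n → Bool) (j : Bool) :
    exb (Fin.snoc (α := fun _ => Bool) J j) n = j := by
  unfold exb
  rw [dif_pos (Nat.lt_succ_self n)]
  exact Fin.snoc_last (α := fun _ => Bool) j J

theorem CEL_sum (n : ℕ) (g : (Fin (n + 1) → Bool) → ℝ) :
    ∑ J : Fin (n + 1) → Bool, g J = ∑ J : Fin n → Bool, ∑ j : Bool, g (Fin.snoc (α := fun _ => Bool) J j) := by
  rw [← Fintype.sum_prod_type' (f := fun (J : Fin n → Bool) (j : Bool) =>
    g (Fin.snoc (α := fun _ => Bool) J j))]
  let e : (Fin n → Bool) × Bool ≃ (Fin (n + 1) → Bool) :=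
    { toFun := fun z => Fin.snoc (α := fun _ => Bool) z.1 z.2
      invFun := fun J => (Fin.init J, J (Fin.last n))
      left_inv := fun z => by
        ext
        · simp
        · simp
      right_inv := fun J => Fin.snoc_init_self J }
  exact (Fintype.sum_equiv e _ _ fun z => rfl).symm

theorem CEL_local (a β p : ℝ) (h : a * β = p * ((1 - a) * (1 - β))) (F : Bool → Bool → ℝ) :
    ∑ i : Bool, mu a i * ∑ j : Bool, ∑ ω : Bool, mu β j * mu p ω *
      F (!i && (j || ω)) (!j && (i || ω)) =
    ∑ i : Bool, mu a i * ∑ j : Bool, mu β j * F j i := by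
  simp only [Fintype.sum_bool, mu, Bool.not_true, Bool.not_false, Bool.true_and, Bool.false_and,
    Bool.or_true, Bool.or_false, if_true, Bool.false_eq_true, if_false]
  linear_combination (F false false - F true true) * h

theorem CEL_prod (n : ℕ) (q : ℝ) (J : Fin n → Bool) (j : Bool) :
    ∏ y : Fin (n + 1), mu q (Fin.snoc (α := fun _ => Bool) J j y) = (∏ y, mu q (J y)) * mu q j := by
  rw [Fin.prod_univ_castSucc]
  simp

/-- Row CEL. -/
theorem CEL : CEL_stmt := by
  intro n a β p h
  induction n with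
  | zero =>
    intro F
    refine Finset.sum_congr rfl fun I _ => ?_
    rw [Fintype.sum_unique, Fintype.sum_unique, Fintype.sum_unique]
    simp only [Finset.univ_eq_empty, Finset.prod_empty, mul_one]
    exact congrArg (fun V => mu a I * F V I) (Subsingleton.elim _ _)
  | succ n ih =>
    intro F
    obtain ⟨G, hG⟩ : ∃ G : (Fin n → Bool) → Bool → ℝ, ∀ V i, G V i =
      ∑ j : Bool, ∑ ω : Bool, mu β j * mu p ω *
        F (Fin.snoc (α := fun _ => Bool) V (!i && (j || ω))) (!j && (i || ω)) := ⟨_, fun _ _ => rfl⟩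
    have h1 : ∀ (I : Bool) (J w : Fin n → Bool) (j ω : Bool),
        (fun y : Fin (n + 1) => ver I (exb (Fin.snoc (α := fun _ => Bool) J j))
          (exb (Fin.snoc (α := fun _ => Bool) w ω)) (y : ℕ)) =
        Fin.snoc (α := fun _ => Bool) (fun y : Fin n => ver I (exb J) (exb w) (y : ℕ))
          (!(hor I (exb J) (exb w) n) && (j || ω)) := by
      intro I J w j ω
      funext y
      refine Fin.lastCases ?_ (fun y => ?_) y
      · rw [Fin.snoc_last]
        show ver I _ _ n = _
        unfold ver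
        rw [CEL_exb_eq, CEL_exb_eq, CEL_hor I _ _ (exb J) (exb w) n fun z hz =>
          ⟨CEL_exb_lt J j z hz, CEL_exb_lt w ω z hz⟩]
      · rw [Fin.snoc_castSucc]
        exact CEL_ver I _ _ _ _ y fun z hz => ⟨CEL_exb_lt J j z (lt_of_le_of_lt hz y.2),
          CEL_exb_lt w ω z (lt_of_le_of_lt hz y.2)⟩
    have h2 : ∀ (I : Bool) (J w : Fin n → Bool) (j ω : Bool),
        hor I (exb (Fin.snoc (α := fun _ => Bool) J j)) (exb (Fin.snoc (α := fun _ => Bool) w ω))
          (n + 1) = (!j && (hor I (exb J) (exb w) n || ω)) := by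
      intro I J w j ω
      show (!(exb (Fin.snoc (α := fun _ => Bool) J j) n) &&
        (hor I (exb (Fin.snoc (α := fun _ => Bool) J j)) (exb (Fin.snoc (α := fun _ => Bool) w ω)) n ||
          exb (Fin.snoc (α := fun _ => Bool) w ω) n)) = _
      rw [CEL_exb_eq, CEL_exb_eq, CEL_hor I _ _ (exb J) (exb w) n fun z hz =>
        ⟨CEL_exb_lt J j z hz, CEL_exb_lt w ω z hz⟩]
    have h3 : ∀ I : Bool, (∑ J : Fin (n + 1) → Bool, ∑ w : Fin (n + 1) → Bool,
        mu a I * (∏ y, mu β (J y)) * (∏ y, mu p (w y)) *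
          F (fun y => ver I (exb J) (exb w) (y : ℕ)) (hor I (exb J) (exb w) (n + 1))) =
        ∑ J : Fin n → Bool, ∑ w : Fin n → Bool,
          mu a I * (∏ y, mu β (J y)) * (∏ y, mu p (w y)) *
            G (fun y => ver I (exb J) (exb w) (y : ℕ)) (hor I (exb J) (exb w) n) := by
      intro I
      rw [CEL_sum]
      refine Finset.sum_congr rfl fun J _ => ?_
      have h4 : ∀ j : Bool, (∑ w : Fin (n + 1) → Bool, mu a I *
          (∏ y, mu β (Fin.snoc (α := fun _ => Bool) J j y)) * (∏ y, mu p (w y)) *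
          F (fun y => ver I (exb (Fin.snoc (α := fun _ => Bool) J j)) (exb w) (y : ℕ))
            (hor I (exb (Fin.snoc (α := fun _ => Bool) J j)) (exb w) (n + 1))) =
          ∑ w : Fin n → Bool, ∑ ω : Bool, mu a I * ((∏ y, mu β (J y)) * mu β j) *
            ((∏ y, mu p (w y)) * mu p ω) *
            F (Fin.snoc (α := fun _ => Bool) (fun y : Fin n => ver I (exb J) (exb w) (y : ℕ))
              (!(hor I (exb J) (exb w) n) && (j || ω))) (!j && (hor I (exb J) (exb w) n || ω)) := by
        intro j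
        rw [CEL_sum]
        refine Finset.sum_congr rfl fun w _ => Finset.sum_congr rfl fun ω _ => ?_
        rw [h1, h2, CEL_prod, CEL_prod]
      rw [Finset.sum_congr rfl fun j _ => h4 j, Finset.sum_comm]
      refine Finset.sum_congr rfl fun w _ => ?_
      rw [hG, Finset.mul_sum]
      refine Finset.sum_congr rfl fun j _ => ?_
      rw [Finset.mul_sum]
      exact Finset.sum_congr rfl fun ω _ => by ring
    rw [Finset.sum_congr rfl fun I _ => h3 I, ih G, Finset.sum_comm]
    have h5 : ∀ J : Fin n → Bool, (∑ I : Bool, mu a I * (∏ y, mu β (J y)) * G J I) =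
        ∑ I : Bool, ∑ j : Bool, mu a I * ((∏ y, mu β (J y)) * mu β j) *
          F (Fin.snoc (α := fun _ => Bool) J j) I := by
      intro J
      have h6 := CEL_local a β p h fun j i => F (Fin.snoc (α := fun _ => Bool) J j) i
      have h7 : (∑ I : Bool, mu a I * (∏ y, mu β (J y)) * G J I) =
          (∏ y, mu β (J y)) * ∑ I : Bool, mu a I * ∑ j : Bool, ∑ ω : Bool, mu β j * mu p ω *
            F (Fin.snoc (α := fun _ => Bool) J (!I && (j || ω))) (!j && (I || ω)) := by
        rw [Finset.mul_sum]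
        refine Finset.sum_congr rfl fun I _ => ?_
        rw [hG]
        ring
      rw [h7, h6, Finset.mul_sum]
      refine Finset.sum_congr rfl fun I _ => ?_
      rw [Finset.mul_sum, Finset.mul_sum]
      exact Finset.sum_congr rfl fun j _ => by ring
    rw [Finset.sum_congr rfl fun J _ => h5 J, Finset.sum_comm]
    refine Finset.sum_congr rfl fun I _ => ?_
    rw [CEL_sum]
    refine Finset.sum_congr rfl fun J _ => Finset.sum_congr rfl fun j _ => ?_
    rw [CEL_prod]

end Pool.Agent.DSW
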